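import Pool.Agent.Helper868.STS

namespace Pool.Agent.Results.MP_bc5946_co.LimitIsOne

open Filter Topology

/-- A 2-(v,3,1) design (Steiner triple system) with point set `X` and block collection `B`:
every block is a 3-subset of `X`, and every two distinct points of `X` lie in exactly one block. -/
def IsSTS {V : Type} [DecidableEq V] (X : Finset V) (B : Finset (Finset V)) : Prop :=
  (∀ b ∈ B, b ⊆ X ∧ b.card = 3) ∧ ∀ x ∈ X, ∀ y ∈ X, x ≠ y → ∃! b, b ∈ B ∧ x ∈ b ∧ y ∈ b

/-- `S` is a defining set of the design with point set `X` and block collection `D`: `S` is a set of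
blocks of `D`, and `D` is the only Steiner triple system on `X` whose block collection contains
`S`. -/
def IsDefiningSet {V : Type} [DecidableEq V] (X : Finset V) (D S : Finset (Finset V)) : Prop :=
  S ⊆ D ∧ ∀ B, IsSTS X B → S ⊆ B → B = D

/-- The points of `PG(n,2)`: the nonzero vectors of the space of dimension `n+1` over the field with
two elements. -/
def points (n : ℕ) : Finset (Fin (n + 1) → ZMod 2) := Finset.univ.filter fun v => v ≠ 0

/-- The lines of `PG(n,2)`: the triples `{x, y, x+y}` with `x`, `y` distinct points. -/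
def lines (n : ℕ) : Finset (Finset (Fin (n + 1) → ZMod 2)) :=
  Finset.univ.filter fun b => ∃ x ∈ points n, ∃ y ∈ points n, x ≠ y ∧ b = {x, y, x + y}

/-- The smallest size of a defining set of the design `P_n` of points and lines of `PG(n,2)`. -/
noncomputable def minDefiningSize (n : ℕ) : ℕ :=
  sInf {k | ∃ S, IsDefiningSet (points n) (lines n) S ∧ S.card = k}

/-- The quotient of the smallest size of a defining set of `P_n` by the number
`(2^(n+1)-1)(2^(n+1)-2)/6` of blocks of `P_n`. -/
noncomputable def mu (n : ℕ) : ℝ :=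
  (minDefiningSize n : ℝ) / (((2:ℝ) ^ (n + 1) - 1) * ((2:ℝ) ^ (n + 1) - 2) / 6)

lemma two_mul_vec {m : ℕ} (x : Fin m → ZMod 2) : x + x = 0 := by
  funext i
  exact CharTwo.add_self_eq_zero (x i)

lemma neg_vec {m : ℕ} (x : Fin m → ZMod 2) : -x = x := by
  rw [neg_eq_iff_add_eq_zero]
  exact two_mul_vec x

lemma mem_points {n : ℕ} {v : Fin (n + 1) → ZMod 2} : v ∈ points n ↔ v ≠ 0 := by
  simp [points]

lemma closed_points (n : ℕ) : Pool.Agent.Helper868.STS.Closed (points n) := by
  intro x hx y hy hxy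
  rw [mem_points] at hx hy ⊢
  rw [neg_vec]
  refine ⟨fun h => hxy ?_, fun h => hy ?_, fun h => hx ?_⟩
  · rw [← neg_vec y]
    exact eq_neg_of_add_eq_zero_left h
  · simpa using h
  · simpa using h

lemma lines_eq (n : ℕ) : lines n = Pool.Agent.Helper868.STS.zeroTriples (points n) := by
  ext b
  simp only [lines, Finset.mem_filter, Finset.mem_univ, true_and]
  constructor
  · rintro ⟨x, hx, y, hy, hxy, rfl⟩
    have := Pool.Agent.Helper868.STS.zero_triple_of_pair (closed_points n) hx hy hxy
    rwa [neg_vec] at this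
  · intro hb
    obtain ⟨h1, h2, -⟩ := Pool.Agent.Helper868.STS.mem_zeroTriples.1 hb
    obtain ⟨x, y, z, hxy, -, -, hbe⟩ := Finset.card_eq_three.1 h2
    have hx : x ∈ b := by rw [hbe]; simp
    have hy : y ∈ b := by rw [hbe]; simp
    refine ⟨x, h1 hx, y, h1 hy, hxy, ?_⟩
    have := Pool.Agent.Helper868.STS.zero_triple_eq hb hx hy hxy
    rwa [neg_vec] at this

/-- Sanity check: the points and lines of `PG(n,2)` form a Steiner triple system. -/
theorem lines_isSTS (n : ℕ) : IsSTS (points n) (lines n) := by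
  rw [lines_eq]
  exact Pool.Agent.Helper868.STS.zeroTriples_isSTS (closed_points n)

lemma card_points (n : ℕ) : (points n).card = 2 ^ (n + 1) - 1 := by
  have h : points n = Finset.univ.erase 0 := by
    ext v
    simp [mem_points]
  rw [h, Finset.card_erase_of_mem (Finset.mem_univ _), Finset.card_univ, Fintype.card_fun, ZMod.card,
    Fintype.card_fin]

/-- Sanity check: the number of blocks of `P_n`. -/
theorem card_lines (n : ℕ) :
    ((lines n).card : ℝ) = ((2:ℝ) ^ (n + 1) - 1) * ((2:ℝ) ^ (n + 1) - 2) / 6 := by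
  have h := Pool.Agent.Helper868.STS.six_card (closed_points n)
  rw [← lines_eq, card_points] at h
  have h1 : 2 ≤ 2 ^ (n + 1) := by
    calc 2 = 2 ^ 1 := (pow_one 2).symm
      _ ≤ 2 ^ (n + 1) := Nat.pow_le_pow_right (by norm_num) (by omega)
  obtain ⟨u, hu⟩ : ∃ u, 2 ^ (n + 1) = u + 2 := ⟨2 ^ (n + 1) - 2, by omega⟩
  have hur : (2:ℝ) ^ (n + 1) = u + 2 := by exact_mod_cast hu
  rw [hu] at h
  have h2 : 6 * (lines n).card = (u + 1) * u := by
    rw [h]
    have e : u + 2 - 1 = u + 1 := by omega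
    rw [e]
    have e2 : (u + 1) * (u + 1) = (u + 1) * u + (u + 1) := by ring
    omega
  rw [hur]
  have h3 : (6:ℝ) * (lines n).card = (u + 1) * u := by exact_mod_cast h2
  linarith

/-- The whole block collection is a defining set. -/
lemma whole_defining {V : Type} [DecidableEq V] {X : Finset V} {D : Finset (Finset V)}
    (hD : IsSTS X D) : IsDefiningSet X D D := by
  refine ⟨Finset.Subset.refl _, fun B hB hDB => ?_⟩
  apply Finset.Subset.antisymm _ hDB
  intro b hb
  obtain ⟨h1, h2⟩ := hB.1 b hb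
  obtain ⟨x, y, z, hxy, -, -, hbe⟩ := Finset.card_eq_three.1 h2
  have hx : x ∈ b := by rw [hbe]; simp
  have hy : y ∈ b := by rw [hbe]; simp
  obtain ⟨c, ⟨hc1, hc2, hc3⟩, -⟩ := hD.2 x (h1 hx) y (h1 hy) hxy
  have := (hB.2 x (h1 hx) y (h1 hy) hxy).unique ⟨hb, hx, hy⟩ ⟨hDB hc1, hc2, hc3⟩
  rw [this]
  exact hc1

lemma exists_min (n : ℕ) : ∃ S, IsDefiningSet (points n) (lines n) S ∧ S.card = minDefiningSize n := by
  have h : {k | ∃ S, IsDefiningSet (points n) (lines n) S ∧ S.card = k}.Nonempty :=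
    ⟨_, lines n, whole_defining (lines_isSTS n), rfl⟩
  exact Nat.sInf_mem h

lemma min_le (n : ℕ) : minDefiningSize n ≤ (lines n).card :=
  Nat.sInf_le ⟨lines n, whole_defining (lines_isSTS n), rfl⟩

/-- **The limit is 1.** The smallest defining sets of the binary projective Steiner triple systems
contain asymptotically all blocks. -/
theorem result : Tendsto mu atTop (𝓝 1) := by
  rw [Metric.tendsto_atTop]
  intro ε hε
  obtain ⟨N, hN⟩ := Pool.Agent.Helper868.STS.defining_large 2 (by norm_num) (ε / 4) (by positivity)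
  refine ⟨max N 1, fun n hn => ?_⟩
  have hnN : N ≤ n + 1 := (le_max_left N 1).trans (hn.trans (Nat.le_succ n))
  have hn1 : 1 ≤ n := (le_max_right N 1).trans hn
  obtain ⟨S, hS, hSc⟩ := exists_min n
  have hS' : Pool.Agent.Helper868.STS.IsDefiningSet (points n)
      (Pool.Agent.Helper868.STS.zeroTriples (points n)) S := by
    rw [← lines_eq]
    exact hS
  have h1 := hN (n + 1) hnN (points n) (closed_points n) S hS'
  rw [← lines_eq] at h1
  have h2 : ((lines n \ S).card : ℝ) = (lines n).card - S.card := by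
    rw [Finset.card_sdiff_of_subset hS.1, Nat.cast_sub (Finset.card_le_card hS.1)]
  rw [h2, hSc, card_lines] at h1
  have hle : (minDefiningSize n : ℝ) ≤ ((2:ℝ) ^ (n + 1) - 1) * ((2:ℝ) ^ (n + 1) - 2) / 6 := by
    rw [← card_lines]
    exact_mod_cast min_le n
  have hu : (4:ℝ) ≤ (2:ℝ) ^ (n + 1) := by
    calc (4:ℝ) = 2 ^ 2 := by norm_num
      _ ≤ 2 ^ (n + 1) := pow_le_pow_right₀ (by norm_num) (by omega)
  have hpow : ((2:ℕ):ℝ) ^ (2 * (n + 1)) = ((2:ℝ) ^ (n + 1)) ^ 2 := by
    rw [← pow_mul]
    push_cast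
    ring_nf
  rw [hpow] at h1
  set u : ℝ := (2:ℝ) ^ (n + 1) with hudef
  have hb : 0 < (u - 1) * (u - 2) / 6 := by
    have := mul_pos (show 0 < u - 1 by linarith) (show 0 < u - 2 by linarith)
    linarith
  have hb2 : u ^ 2 / 4 ≤ (u - 1) * (u - 2) := by nlinarith
  rw [Real.dist_eq, abs_sub_lt_iff]
  have hmu : mu n = (minDefiningSize n : ℝ) / ((u - 1) * (u - 2) / 6) := rfl
  constructor
  · have : mu n ≤ 1 := by
      rw [hmu, div_le_one hb]
      exact hle
    linarith
  · have : 1 - ε < mu n := by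
      rw [hmu, lt_div_iff₀ hb]
      nlinarith
    linarith

end Pool.Agent.Results.MP_bc5946_co.LimitIsOne
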