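import Mathlib
import Pool.Agent.Helper903.DHJ

namespace Pool.Agent.Results.MP_bc5946_co.LimitOne

/-- `IsSTS V B`: the finite collection `B` is a Steiner triple system, that is a
2-(v,3,1) design, on the finite point set `V`: every block is a 3-subset of `V`, and every two
distinct points of `V` lie together in exactly one block. -/
def IsSTS {E : Type} (V : Finset E) (B : Finset (Finset E)) : Prop :=
  (∀ b ∈ B, b ⊆ V ∧ b.card = 3) ∧
    ∀ u ∈ V, ∀ v ∈ V, u ≠ v → ∃! b, b ∈ B ∧ u ∈ b ∧ v ∈ b

/-- `S` is a defining set of the design `B` on the point set `V`: `S` is a set of blocks of `B`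
and `B` is the only design on `V` whose block set contains `S`. -/
def IsDefiningSet {E : Type} (V : Finset E) (B S : Finset (Finset E)) : Prop :=
  S ⊆ B ∧ ∀ B' : Finset (Finset E), IsSTS V B' → S ⊆ B' → B' = B

/-- the points of PG(n,2): the nonzero vectors of the (n+1)-dimensional space over the field
with two elements -/
def points (n : ℕ) : Finset (Fin (n + 1) → ZMod 2) := Finset.univ.erase 0

/-- the lines of PG(n,2): the sets of three distinct nonzero vectors with sum zero, that is the
triples x, y, x + y -/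
def lines (n : ℕ) : Finset (Finset (Fin (n + 1) → ZMod 2)) :=
  ((points n).powersetCard 3).filter (fun b => ∑ x ∈ b, x = 0)

/-- the number b_n of blocks -/
noncomputable def numBlocks (n : ℕ) : ℝ := (2 ^ (n + 1) - 1) * (2 ^ (n + 1) - 2) / 6

/-- the fraction of blocks in a smallest defining set of the design of points and lines of
PG(n,2) -/
noncomputable def mu (n : ℕ) : ℝ :=
  (sInf {k : ℕ | ∃ S : Finset (Finset (Fin (n + 1) → ZMod 2)),
    IsDefiningSet (points n) (lines n) S ∧ S.card = k} : ℕ) / numBlocks n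

section Triples

variable {E : Type} [AddCommGroup E] [DecidableEq E]

theorem triple_eq (h2 : ∀ x : E, x + x = 0) {b : Finset E} (hb : b.card = 3) {u v : E}
    (hu : u ∈ b) (hv : v ∈ b) (huv : u ≠ v) : b = {u, v, (∑ x ∈ b, x) + u + v} := by
  have h1 : (b.erase u).card = 2 := by rw [Finset.card_erase_of_mem hu, hb]
  have hv' : v ∈ b.erase u := Finset.mem_erase.mpr ⟨huv.symm, hv⟩
  have h3 : ((b.erase u).erase v).card = 1 := by rw [Finset.card_erase_of_mem hv', h1]
  obtain ⟨w, hw⟩ := Finset.card_eq_one.mp h3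
  have hb' : b = {u, v, w} := by
    rw [← Finset.insert_erase hu, ← Finset.insert_erase hv', hw]
  have hw' : w ∈ (b.erase u).erase v := by rw [hw]; exact Finset.mem_singleton_self w
  have hwv : w ≠ v := (Finset.mem_erase.mp hw').1
  have hwu : w ≠ u := (Finset.mem_erase.mp (Finset.mem_erase.mp hw').2).1
  have hs : ∑ x ∈ b, x = u + (v + w) := by
    rw [hb', Finset.sum_insert, Finset.sum_insert, Finset.sum_singleton]
    · simp [hwv.symm]
    · simp [huv, hwu.symm]
  have hw2 : (∑ x ∈ b, x) + u + v = w := by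
    rw [hs]
    calc u + (v + w) + u + v = (u + u) + (v + v) + w := by abel
      _ = w := by rw [h2, h2]; simp
  rw [hw2]
  exact hb'

theorem sts_lines [Fintype E] (h2 : ∀ x : E, x + x = 0) :
    IsSTS (Finset.univ.erase (0 : E))
      (((Finset.univ.erase (0 : E)).powersetCard 3).filter (fun b => ∑ x ∈ b, x = 0)) := by
  constructor
  · intro b hb
    rw [Finset.mem_filter, Finset.mem_powersetCard] at hb
    exact hb.1
  · intro u hu v hv huv
    have hu0 : u ≠ 0 := (Finset.mem_erase.mp hu).1
    have hv0 : v ≠ 0 := (Finset.mem_erase.mp hv).1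
    have hw0 : u + v ≠ 0 := by
      intro h
      apply huv
      calc u = u + (v + v) := by rw [h2, add_zero]
        _ = (u + v) + v := by abel
        _ = v := by rw [h, zero_add]
    have hwu : u ≠ u + v := by
      intro h
      exact hv0 (by simpa using h.symm)
    have hwv : v ≠ u + v := by
      intro h
      exact hu0 (by simpa using h.symm)
    refine ⟨{u, v, u + v}, ⟨?_, by simp, by simp⟩, ?_⟩
    · rw [Finset.mem_filter, Finset.mem_powersetCard]
      refine ⟨⟨?_, ?_⟩, ?_⟩
      · intro x hx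
        simp only [Finset.mem_insert, Finset.mem_singleton] at hx
        rw [Finset.mem_erase]
        rcases hx with rfl | rfl | rfl
        · exact ⟨hu0, Finset.mem_univ _⟩
        · exact ⟨hv0, Finset.mem_univ _⟩
        · exact ⟨hw0, Finset.mem_univ _⟩
      · rw [Finset.card_eq_three]
        exact ⟨u, v, u + v, huv, hwu, hwv, rfl⟩
      · rw [Finset.sum_insert, Finset.sum_insert, Finset.sum_singleton]
        · rw [← add_assoc, h2]
        · simpa using hwv
        · simp only [Finset.mem_insert, Finset.mem_singleton, not_or]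
          exact ⟨huv, hwu⟩
    · rintro b ⟨hb, hub, hvb⟩
      rw [Finset.mem_filter, Finset.mem_powersetCard] at hb
      rw [triple_eq h2 hb.1.2 hub hvb huv, hb.2, zero_add]

theorem switch_sts [Fintype E] (h2 : ∀ x : E, x + x = 0) (T : Finset E) (d : E)
    (h0 : (0 : E) ∉ T) (hdT : d ∉ T)
    (hT : ∀ u ∈ T, ∀ v ∈ T, u ≠ v → u + v ≠ d → u + v ∈ T ∧ u + v + d ∈ T) :
    IsSTS (Finset.univ.erase (0 : E))
      ((((Finset.univ.erase (0 : E)).powersetCard 3).filter (fun b => ∑ x ∈ b, x = 0)).filter
        (fun b => ¬ b ⊆ T) ∪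
      ((Finset.univ.erase (0 : E)).powersetCard 3).filter
        (fun b => b ⊆ T ∧ ∑ x ∈ b, x = d)) := by
  have hcancel : ∀ a b : E, a + b = 0 → a = b := by
    intro a b h
    calc a = a + (b + b) := by rw [h2, add_zero]
      _ = (a + b) + b := by abel
      _ = b := by rw [h, zero_add]
  constructor
  · intro b hb
    rw [Finset.mem_union, Finset.mem_filter, Finset.mem_filter, Finset.mem_filter,
      Finset.mem_powersetCard] at hb
    rcases hb with hb | hb
    · exact hb.1.1
    · exact hb.1
  · intro u hu v hv huv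
    have hu0 : u ≠ 0 := (Finset.mem_erase.mp hu).1
    have hv0 : v ≠ 0 := (Finset.mem_erase.mp hv).1
    by_cases hC : u ∈ T ∧ v ∈ T ∧ u + v ≠ d
    · obtain ⟨huT, hvT, huvd⟩ := hC
      obtain ⟨hw1, hw2⟩ := hT u huT v hvT huv huvd
      have hw0 : u + v + d ≠ 0 := fun h => h0 (h ▸ hw2)
      have hwu : u ≠ u + v + d := by
        intro h
        have : v + d = 0 := by
          have h' : u + (v + d) = u + 0 := by rw [add_zero, ← add_assoc]; exact h.symm
          exact add_left_cancel h'
        exact hdT ((hcancel _ _ this) ▸ hvT)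
      have hwv : v ≠ u + v + d := by
        intro h
        have : u + d = 0 := by
          have h' : v + (u + d) = v + 0 := by
            rw [add_zero, ← add_assoc, add_comm v u]; exact h.symm
          exact add_left_cancel h'
        exact hdT ((hcancel _ _ this) ▸ huT)
      refine ⟨{u, v, u + v + d}, ⟨?_, by simp, by simp⟩, ?_⟩
      · rw [Finset.mem_union]
        right
        rw [Finset.mem_filter, Finset.mem_powersetCard]
        have hsub : ({u, v, u + v + d} : Finset E) ⊆ T := by
          intro x hx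
          simp only [Finset.mem_insert, Finset.mem_singleton] at hx
          rcases hx with rfl | rfl | rfl
          · exact huT
          · exact hvT
          · exact hw2
        refine ⟨⟨?_, ?_⟩, hsub, ?_⟩
        · intro x hx
          rw [Finset.mem_erase]
          exact ⟨fun h => h0 (h ▸ hsub hx), Finset.mem_univ _⟩
        · rw [Finset.card_eq_three]
          exact ⟨u, v, u + v + d, huv, hwu, hwv, rfl⟩
        · rw [Finset.sum_insert, Finset.sum_insert, Finset.sum_singleton]
          · calc u + (v + (u + v + d)) = (u + u) + (v + v) + d := by abel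
              _ = d := by rw [h2, h2]; simp
          · simpa using hwv
          · simp only [Finset.mem_insert, Finset.mem_singleton, not_or]
            exact ⟨huv, hwu⟩
      · rintro b ⟨hb, hub, hvb⟩
        rw [Finset.mem_union, Finset.mem_filter, Finset.mem_filter, Finset.mem_filter,
          Finset.mem_powersetCard] at hb
        rcases hb with hb | hb
        · exfalso
          apply hb.2
          rw [triple_eq h2 hb.1.1.2 hub hvb huv, hb.1.2, zero_add]
          intro x hx
          simp only [Finset.mem_insert, Finset.mem_singleton] at hx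
          rcases hx with rfl | rfl | rfl
          · exact huT
          · exact hvT
          · exact hw1
        · rw [triple_eq h2 hb.1.2 hub hvb huv, hb.2.2]
          congr 2
          abel_nf
    · have hw0 : u + v ≠ 0 := fun h => huv (hcancel _ _ h)
      have hwu : u ≠ u + v := by
        intro h
        exact hv0 (by simpa using h.symm)
      have hwv : v ≠ u + v := by
        intro h
        exact hu0 (by simpa using h.symm)
      refine ⟨{u, v, u + v}, ⟨?_, by simp, by simp⟩, ?_⟩
      · rw [Finset.mem_union]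
        left
        rw [Finset.mem_filter, Finset.mem_filter, Finset.mem_powersetCard]
        refine ⟨⟨⟨?_, ?_⟩, ?_⟩, ?_⟩
        · intro x hx
          simp only [Finset.mem_insert, Finset.mem_singleton] at hx
          rw [Finset.mem_erase]
          rcases hx with rfl | rfl | rfl
          · exact ⟨hu0, Finset.mem_univ _⟩
          · exact ⟨hv0, Finset.mem_univ _⟩
          · exact ⟨hw0, Finset.mem_univ _⟩
        · rw [Finset.card_eq_three]
          exact ⟨u, v, u + v, huv, hwu, hwv, rfl⟩
        · rw [Finset.sum_insert, Finset.sum_insert, Finset.sum_singleton]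
          · rw [← add_assoc, h2]
          · simpa using hwv
          · simp only [Finset.mem_insert, Finset.mem_singleton, not_or]
            exact ⟨huv, hwu⟩
        · intro hsub
          have huT : u ∈ T := hsub (by simp)
          have hvT : v ∈ T := hsub (by simp)
          have hwT : u + v ∈ T := hsub (by simp)
          apply hC
          exact ⟨huT, hvT, fun h => hdT (h ▸ hwT)⟩
      · rintro b ⟨hb, hub, hvb⟩
        rw [Finset.mem_union, Finset.mem_filter, Finset.mem_filter, Finset.mem_filter,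
          Finset.mem_powersetCard] at hb
        rcases hb with hb | hb
        · rw [triple_eq h2 hb.1.1.2 hub hvb huv, hb.1.2, zero_add]
        · exfalso
          have huT : u ∈ T := hb.2.1 hub
          have hvT : v ∈ T := hb.2.1 hvb
          have huvd : u + v = d := by
            by_contra h
            exact hC ⟨huT, hvT, h⟩
          have h3 := triple_eq h2 hb.1.2 hub hvb huv
          rw [hb.2.2] at h3
          have hwT : d + u + v ∈ T := hb.2.1 (by rw [h3]; simp)
          have : d + u + v = 0 := by rw [add_assoc, huvd, h2]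
          exact h0 (this ▸ hwT)

theorem not_defining [Fintype E] (h2 : ∀ x : E, x + x = 0) (T : Finset E) (d : E)
    (h0 : (0 : E) ∉ T) (hd0 : d ≠ 0) (hdT : d ∉ T)
    (hT : ∀ u ∈ T, ∀ v ∈ T, u ≠ v → u + v ≠ d → u + v ∈ T ∧ u + v + d ∈ T)
    (S : Finset (Finset E))
    (hS : ∀ b ∈ S, b ∈ ((Finset.univ.erase (0 : E)).powersetCard 3).filter
      (fun b => ∑ x ∈ b, x = 0) → ¬ b ⊆ T)
    (b0 : Finset E) (hb0 : b0 ∈ ((Finset.univ.erase (0 : E)).powersetCard 3).filter
      (fun b => ∑ x ∈ b, x = 0)) (hb0T : b0 ⊆ T) :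
    ¬ IsDefiningSet (Finset.univ.erase (0 : E))
      (((Finset.univ.erase (0 : E)).powersetCard 3).filter (fun b => ∑ x ∈ b, x = 0)) S := by
  rintro ⟨hSP, huniq⟩
  have h1 := huniq _ (switch_sts h2 T d h0 hdT hT) (by
    intro b hb
    rw [Finset.mem_union]
    left
    rw [Finset.mem_filter]
    exact ⟨hSP hb, hS b hb (hSP hb)⟩)
  have h3 := h1.symm ▸ hb0
  rw [Finset.mem_union] at h3
  rcases h3 with h3 | h3
  · rw [Finset.mem_filter] at h3
    exact h3.2 hb0T
  · rw [Finset.mem_filter] at h3 hb0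
    apply hd0
    rw [← h3.2.2, hb0.2]

end Triples

section Pasch

/-- the auxiliary coordinate space -/
abbrev K : Type := ZMod 2 × ZMod 2 × ZMod 2

/-- auxiliary decidable check -/
def okK (s t : K) : Bool := decide (s ≠ 0 → t ≠ 0 → s ≠ (0, 0, 1) → t ≠ (0, 0, 1) → s ≠ t →
    s + t ≠ (0, 0, 1) → ∃ a b : ZMod 2, ({s, t, s + t} : Finset K) =
      {(1, 0, a), (0, 1, b), (1, 1, a + b)})

theorem K_lines' : ∀ s t : K, okK s t = true := by
  decide

theorem K_lines : ∀ s t : K, s ≠ 0 → t ≠ 0 → s ≠ (0, 0, 1) → t ≠ (0, 0, 1) → s ≠ t →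
    s + t ≠ (0, 0, 1) → ∃ a b : ZMod 2, ({s, t, s + t} : Finset K) =
      {(1, 0, a), (0, 1, b), (1, 1, a + b)} := by
  intro s t
  exact of_decide_eq_true (K_lines' s t)

theorem add_self_zero {n : ℕ} (x : Fin (n + 1) → ZMod 2) : x + x = 0 := by
  funext i
  exact CharTwo.add_self_eq_zero (x i)

theorem pasch_not_defining {n : ℕ} (S : Finset (Finset (Fin (n + 1) → ZMod 2)))
    (x y d : Fin (n + 1) → ZMod 2) (hd : d ≠ 0)
    (h : ∀ a b : ZMod 2, ({x + a • d, y + b • d, x + y + (a + b) • d} :
      Finset (Fin (n + 1) → ZMod 2)) ∈ lines n \ S) :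
    ¬ IsDefiningSet (points n) (lines n) S := by
  classical
  have hP : ∀ a b : ZMod 2, ({x + a • d, y + b • d, x + y + (a + b) • d} :
      Finset (Fin (n + 1) → ZMod 2)) ∈ lines n := fun a b => (Finset.mem_sdiff.mp (h a b)).1
  have hnz : ∀ a b : ZMod 2, x + a • d ≠ 0 ∧ y + b • d ≠ 0 ∧ x + y + (a + b) • d ≠ 0 := by
    intro a b
    have h1 := hP a b
    unfold lines at h1
    rw [Finset.mem_filter, Finset.mem_powersetCard] at h1
    have h2 := h1.1.1
    refine ⟨?_, ?_, ?_⟩
    · exact (Finset.mem_erase.mp (h2 (by simp))).1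
    · exact (Finset.mem_erase.mp (h2 (by simp))).1
    · exact (Finset.mem_erase.mp (h2 (by simp))).1
  let φ : K → (Fin (n + 1) → ZMod 2) := fun s => s.1 • x + s.2.1 • y + s.2.2 • d
  have hadd : ∀ s t, φ (s + t) = φ s + φ t := by
    intro s t
    simp only [φ, Prod.fst_add, Prod.snd_add, add_smul]
    abel
  have h01 : ∀ a : ZMod 2, a = 0 ∨ a = 1 := by decide
  have hker : ∀ s, s ≠ 0 → φ s ≠ 0 := by
    rintro ⟨a, b, c⟩ hs
    simp only [φ]
    rcases h01 a with rfl | rfl
    · rcases h01 b with rfl | rfl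
      · rcases h01 c with rfl | rfl
        · exact absurd rfl hs
        · simpa using hd
      · have := (hnz 0 c).2.1
        simpa using this
    · rcases h01 b with rfl | rfl
      · have := (hnz c 0).1
        simpa using this
      · have := (hnz 0 c).2.2
        simpa using this
  have hinj : Function.Injective φ := by
    intro s t hst
    by_contra hne
    have h1 : s + t ≠ 0 := by
      intro h2
      apply hne
      have h3 : t + t = 0 := by
        rcases t with ⟨a, b, c⟩
        simp [CharTwo.add_self_eq_zero]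
      calc s = s + (t + t) := by rw [h3, add_zero]
        _ = (s + t) + t := by abel
        _ = t := by rw [h2, zero_add]
    apply hker _ h1
    rw [hadd, hst, add_self_zero]
  have hd' : φ (0, 0, 1) = d := by simp [φ]
  have hφ0 : φ 0 = 0 := by simp [φ]
  let T : Finset (Fin (n + 1) → ZMod 2) :=
    (Finset.univ.filter (fun s : K => s ≠ 0 ∧ s ≠ (0, 0, 1))).image φ
  have hTmem : ∀ s, φ s ∈ T ↔ s ≠ 0 ∧ s ≠ (0, 0, 1) := by
    intro s
    simp only [T, Finset.mem_image, Finset.mem_filter, Finset.mem_univ, true_and]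
    constructor
    · rintro ⟨t, ht, hts⟩
      rw [← hinj hts]
      exact ht
    · intro hs
      exact ⟨s, hs, rfl⟩
  have hTex : ∀ u ∈ T, ∃ s, u = φ s := by
    intro u hu
    simp only [T, Finset.mem_image, Finset.mem_filter, Finset.mem_univ, true_and] at hu
    obtain ⟨t, _, ht⟩ := hu
    exact ⟨t, ht.symm⟩
  have h0T : (0 : Fin (n + 1) → ZMod 2) ∉ T := by
    rw [← hφ0, hTmem]
    exact fun h => h.1 rfl
  have hdT : d ∉ T := by
    rw [← hd', hTmem]
    exact fun h => h.2 rfl
  have hT : ∀ u ∈ T, ∀ v ∈ T, u ≠ v → u + v ≠ d → u + v ∈ T ∧ u + v + d ∈ T := by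
    intro u hu v hv huv huvd
    obtain ⟨s, rfl⟩ := hTex u hu
    obtain ⟨t, rfl⟩ := hTex v hv
    rw [← hadd] at huvd ⊢
    have h1 : s + t ≠ 0 := by
      intro h1
      apply huv
      have : φ s + φ t = 0 := by rw [← hadd, h1, hφ0]
      calc φ s = φ s + (φ t + φ t) := by rw [add_self_zero, add_zero]
        _ = (φ s + φ t) + φ t := by abel
        _ = φ t := by rw [this, zero_add]
    have h2 : s + t ≠ (0, 0, 1) := by
      intro h2
      apply huvd
      rw [h2, hd']
    refine ⟨(hTmem _).mpr ⟨h1, h2⟩, ?_⟩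
    have h3 : φ (s + t) + d = φ (s + t + (0, 0, 1)) := by
      rw [hadd (s + t), hd']
    rw [h3, hTmem]
    have key : ∀ r : K, r ≠ 0 → r ≠ (0, 0, 1) →
        r + (0, 0, 1) ≠ 0 ∧ r + (0, 0, 1) ≠ (0, 0, 1) := by decide
    exact key _ h1 h2
  have hb0 : ({φ (1, 0, 0), φ (0, 1, 0), φ (1, 1, 0)} : Finset (Fin (n + 1) → ZMod 2)) =
      {x + (0 : ZMod 2) • d, y + (0 : ZMod 2) • d, x + y + ((0 : ZMod 2) + 0) • d} := by
    simp [φ]
  refine not_defining add_self_zero T d h0T hd hdT hT S ?_
    {φ (1, 0, 0), φ (0, 1, 0), φ (1, 1, 0)} ?_ ?_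
  · intro b hbS hbP hbT
    rw [Finset.mem_filter, Finset.mem_powersetCard] at hbP
    obtain ⟨⟨_, hb3⟩, hbs⟩ := hbP
    obtain ⟨u, v, w, huv, _, _, hbuvw⟩ := Finset.card_eq_three.mp hb3
    have hub : u ∈ b := by rw [hbuvw]; simp
    have hvb : v ∈ b := by rw [hbuvw]; simp
    have hbe := triple_eq add_self_zero hb3 hub hvb huv
    rw [hbs, zero_add] at hbe
    have hwb : u + v ∈ b := by rw [hbe]; simp
    obtain ⟨s, rfl⟩ := hTex u (hbT hub)
    obtain ⟨t, rfl⟩ := hTex v (hbT hvb)
    have hs := (hTmem s).mp (hbT hub)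
    have ht := (hTmem t).mp (hbT hvb)
    have hst := hbT hwb
    rw [← hadd, hTmem] at hst
    obtain ⟨a, c, hac⟩ := K_lines s t hs.1 ht.1 hs.2 ht.2 (fun h => huv (by rw [h])) hst.2
    have himg := congrArg (Finset.image φ) hac
    rw [Finset.image_insert, Finset.image_insert, Finset.image_singleton,
      Finset.image_insert, Finset.image_insert, Finset.image_singleton, hadd, ← hbe] at himg
    have h5 : ({φ (1, 0, a), φ (0, 1, c), φ (1, 1, a + c)} : Finset (Fin (n + 1) → ZMod 2)) =
      {x + a • d, y + c • d, x + y + (a + c) • d} := by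
      simp [φ]
    rw [h5] at himg
    have := h a c
    rw [← himg] at this
    exact (Finset.mem_sdiff.mp this).2 hbS
  · rw [hb0]
    exact hP 0 0
  · intro z hz
    simp only [Finset.mem_insert, Finset.mem_singleton] at hz
    rcases hz with rfl | rfl | rfl
    · rw [hTmem]; decide
    · rw [hTmem]; decide
    · rw [hTmem]; decide

end Pasch

section Count

open Pool.Agent.Helper903.DHJ

theorem dens_coe {X : Type} [Fintype X] (F : Finset X) :
    dens (F : Set X) = (F.card : ℝ) / Fintype.card X := by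
  classical
  unfold dens avg
  congr 1
  have : ∀ x, ind (F : Set X) x = if x ∈ F then (1 : ℝ) else 0 := by
    intro x
    split_ifs with h
    · exact ind_mem (Finset.mem_coe.mpr h)
    · exact ind_not_mem (fun h' => h (Finset.mem_coe.mp h'))
  rw [Finset.sum_congr rfl (fun x _ => this x)]
  simp

theorem line_eq {n : ℕ} {b : Finset (Fin (n + 1) → ZMod 2)} (hb : b ∈ lines n)
    {u v : Fin (n + 1) → ZMod 2} (hu : u ∈ b) (hv : v ∈ b) (huv : u ≠ v) :
    b = {u, v, u + v} := by
  unfold lines at hb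
  rw [Finset.mem_filter, Finset.mem_powersetCard] at hb
  have := triple_eq add_self_zero hb.1.2 hu hv huv
  rwa [hb.2, zero_add] at this

theorem card_pairs {n : ℕ} (U : Finset (Finset (Fin (n + 1) → ZMod 2))) (hU : U ⊆ lines n) :
    (U.biUnion Finset.offDiag).card = 6 * U.card := by
  classical
  rw [Finset.card_biUnion]
  · have : ∀ b ∈ U, b.offDiag.card = 6 := by
      intro b hb
      have h1 := hU hb
      unfold lines at h1
      rw [Finset.mem_filter, Finset.mem_powersetCard] at h1
      rw [Finset.offDiag_card, h1.1.2]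
    rw [Finset.sum_congr rfl this, Finset.sum_const, smul_eq_mul, mul_comm]
  · intro b hb b' hb' hne
    change Disjoint b.offDiag b'.offDiag
    rw [Finset.disjoint_left]
    rintro ⟨u, v⟩ h1 h2
    rw [Finset.mem_offDiag] at h1 h2
    apply hne
    rw [line_eq (hU hb) h1.1 h1.2.1 h1.2.2, line_eq (hU hb') h2.1 h2.2.1 h2.2.2]

theorem sts_lines' (n : ℕ) : IsSTS (points n) (lines n) := sts_lines add_self_zero

theorem card_points (n : ℕ) : (points n).card = 2 ^ (n + 1) - 1 := by
  unfold points
  rw [Finset.card_erase_of_mem (Finset.mem_univ _), Finset.card_univ]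
  simp [ZMod.card]

theorem card_lines (n : ℕ) : ((lines n).card : ℝ) = numBlocks n := by
  classical
  have h1 := card_pairs (lines n) (Finset.Subset.refl _)
  have h2 : (lines n).biUnion Finset.offDiag = (points n).offDiag := by
    ext ⟨u, v⟩
    simp only [Finset.mem_biUnion, Finset.mem_offDiag]
    constructor
    · rintro ⟨b, hb, hu, hv, huv⟩
      have hs := ((sts_lines' n).1 b hb).1
      exact ⟨hs hu, hs hv, huv⟩
    · rintro ⟨hu, hv, huv⟩
      obtain ⟨b, ⟨hb, hub, hvb⟩, _⟩ := (sts_lines' n).2 u hu v hv huv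
      exact ⟨b, hb, hub, hvb, huv⟩
  rw [h2, Finset.offDiag_card, card_points] at h1
  have h3 : 1 ≤ 2 ^ (n + 1) := Nat.one_le_two_pow
  have h4 : (2 ^ (n + 1) - 1) * (2 ^ (n + 1) - 1) - (2 ^ (n + 1) - 1) =
      (2 ^ (n + 1) - 1) * (2 ^ (n + 1) - 1 - 1) := (Nat.mul_sub_one _ _).symm
  rw [h4] at h1
  have h5 : (((2 ^ (n + 1) - 1) * (2 ^ (n + 1) - 1 - 1) : ℕ) : ℝ) = ((6 * (lines n).card : ℕ) : ℝ) := by
    rw [h1]
  have h6 : 2 ≤ 2 ^ (n + 1) := by
    rw [pow_succ]
    have : 1 ≤ 2 ^ n := Nat.one_le_two_pow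
    omega
  rw [Nat.cast_mul, Nat.sub_sub, Nat.cast_sub h3, Nat.cast_sub h6] at h5
  push_cast at h5
  unfold numBlocks
  linarith

theorem lines_defining (n : ℕ) : IsDefiningSet (points n) (lines n) (lines n) := by
  refine ⟨Finset.Subset.refl _, fun B' hB' hsub => ?_⟩
  apply Finset.Subset.antisymm _ hsub
  intro b hb
  obtain ⟨hbV, hb3⟩ := hB'.1 b hb
  obtain ⟨u, v, w, huv, _, _, hbuvw⟩ := Finset.card_eq_three.mp hb3
  have hub : u ∈ b := by rw [hbuvw]; simp
  have hvb : v ∈ b := by rw [hbuvw]; simp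
  obtain ⟨c, ⟨hc, huc, hvc⟩, _⟩ := (sts_lines' n).2 u (hbV hub) v (hbV hvb) huv
  obtain ⟨e, _, he⟩ := hB'.2 u (hbV hub) v (hbV hvb) huv
  rw [he b ⟨hb, hub, hvb⟩, ← he c ⟨hsub hc, huc, hvc⟩]
  exact hc

/-- the pairs spanning a line in U -/
def pairSet {n : ℕ} (U : Finset (Finset (Fin (n + 1) → ZMod 2))) :
    Set (Fin (n + 1) → ZMod 2 × ZMod 2) :=
  {w | ({fun i => (w i).1, fun i => (w i).2, fun i => (w i).1 + (w i).2} :
    Finset (Fin (n + 1) → ZMod 2)) ∈ U}

theorem dens_pairSet {n : ℕ} (U : Finset (Finset (Fin (n + 1) → ZMod 2))) (hU : U ⊆ lines n) :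
    6 * (U.card : ℝ) / (2 ^ (n + 1) * 2 ^ (n + 1)) ≤ dens (pairSet U) := by
  classical
  have h1 : (((Equiv.arrowProdEquivProdArrow (Fin (n + 1)) (fun _ => ZMod 2) (fun _ => ZMod 2))) ⁻¹'
      ((U.biUnion Finset.offDiag : Finset ((Fin (n + 1) → ZMod 2) × (Fin (n + 1) → ZMod 2))) :
        Set _)) ⊆ pairSet U := by
    intro w hw
    simp only [Set.mem_preimage, Finset.mem_coe, Finset.mem_biUnion, Finset.mem_offDiag] at hw
    obtain ⟨b, hb, h1, h2, h3⟩ := hw
    change ({fun i => (w i).1, fun i => (w i).2, fun i => (w i).1 + (w i).2} :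
      Finset (Fin (n + 1) → ZMod 2)) ∈ U
    have := line_eq (hU hb) h1 h2 h3
    have h4 : b = ({fun i => (w i).1, fun i => (w i).2, fun i => (w i).1 + (w i).2} :
      Finset (Fin (n + 1) → ZMod 2)) := this
    rw [← h4]
    exact hb
  refine le_trans ?_ (dens_mono h1)
  rw [dens_preimage_equiv, dens_coe, card_pairs U hU]
  have h2 : Fintype.card ((Fin (n + 1) → ZMod 2) × (Fin (n + 1) → ZMod 2)) =
      2 ^ (n + 1) * 2 ^ (n + 1) := by
    rw [Fintype.card_prod, Fintype.card_fun, ZMod.card, Fintype.card_fin]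
  rw [h2]
  push_cast
  exact le_refl _

theorem defining_large (ε : ℝ) (hε : 0 < ε) : ∃ n0 : ℕ, ∀ n ≥ n0,
    ∀ S, IsDefiningSet (points n) (lines n) S → (1 - ε) * numBlocks n ≤ S.card := by
  classical
  obtain ⟨N, hN⟩ := ldhj (ZMod 2 × ZMod 2) (ε / 4) (by positivity)
  have hN' : ∀ A : Set (Fin N → ZMod 2 × ZMod 2), LineFree (ZMod 2 × ZMod 2) (Fin N) A →
      dens A < ε / 4 := by
    intro A hA
    by_contra hcon
    push Not at hcon
    obtain ⟨L, hL⟩ := hN A hcon
    obtain ⟨a, ha⟩ := hA L
    exact ha (hL a)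
  refine ⟨max N 1, fun n hn S hS => ?_⟩
  by_contra hcon
  push Not at hcon
  set U := lines n \ S with hUdef
  have hUl : U ⊆ lines n := Finset.sdiff_subset
  have hcard : (U.card : ℝ) = numBlocks n - S.card := by
    rw [hUdef, Finset.card_sdiff_of_subset hS.1, Nat.cast_sub (Finset.card_le_card hS.1),
      card_lines]
  have hUbig : ε * numBlocks n < U.card := by
    rw [hcard]; linarith
  have hn1 : 1 ≤ n := le_trans (le_max_right _ _) hn
  have hnN : N ≤ n + 1 := le_trans (le_trans (le_max_left _ _) hn) (Nat.le_succ n)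
  have hdens : ε / 4 ≤ dens (pairSet U) := by
    refine le_trans ?_ (dens_pairSet U hUl)
    rw [le_div_iff₀ (by positivity)]
    have h4 : (4 : ℝ) ≤ 2 ^ (n + 1) := by
      calc (4 : ℝ) = 2 ^ (1 + 1) := by norm_num
        _ ≤ 2 ^ (n + 1) := pow_le_pow_right₀ (by norm_num) (by omega)
    have h5 : ε * ((2 ^ (n + 1) - 1) * (2 ^ (n + 1) - 2)) ≤ 6 * U.card := by
      unfold numBlocks at hUbig
      linarith
    set q : ℝ := 2 ^ (n + 1) with hq
    have h6 : q * q / 4 ≤ (q - 1) * (q - 2) := by nlinarith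
    have h7 : ε * (q * q / 4) ≤ ε * ((q - 1) * (q - 2)) := mul_le_mul_of_nonneg_left h6 hε.le
    linarith
  have hnf : ¬ LineFree (ZMod 2 × ZMod 2) (Fin (n + 1)) (pairSet U) := by
    intro hf
    have := mono_dim (LineFree (ZMod 2 × ZMod 2)) (hered_lineFree _) hN' (n + 1) hnN _ hf
    linarith
  unfold LineFree at hnf
  push Not at hnf
  obtain ⟨L, hL⟩ := hnf
  let x : Fin (n + 1) → ZMod 2 := fun i => (L (0, 0) i).1
  let y : Fin (n + 1) → ZMod 2 := fun i => (L (0, 0) i).2
  let d : Fin (n + 1) → ZMod 2 := fun i => if L.idxFun i = none then 1 else 0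
  have hd : d ≠ 0 := by
    obtain ⟨i, hi⟩ := L.proper
    intro h
    have := congrFun h i
    simp [d, hi] at this
  refine pasch_not_defining S x y d hd (fun a b => ?_) hS
  have h1 := hL (a, b)
  change ({fun i => (L (a, b) i).1, fun i => (L (a, b) i).2,
    fun i => (L (a, b) i).1 + (L (a, b) i).2} : Finset (Fin (n + 1) → ZMod 2)) ∈ U at h1
  have e1 : (fun i => (L (a, b) i).1) = x + a • d := by
    funext i
    simp only [x, d, Pi.add_apply, Pi.smul_apply, Combinatorics.Line.coe_apply]
    cases L.idxFun i <;> simp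
  have e2 : (fun i => (L (a, b) i).2) = y + b • d := by
    funext i
    simp only [y, d, Pi.add_apply, Pi.smul_apply, Combinatorics.Line.coe_apply]
    cases L.idxFun i <;> simp
  have e3 : (fun i => (L (a, b) i).1 + (L (a, b) i).2) = x + y + (a + b) • d := by
    have : (fun i => (L (a, b) i).1 + (L (a, b) i).2) =
      (fun i => (L (a, b) i).1) + (fun i => (L (a, b) i).2) := rfl
    rw [this, e1, e2, add_smul]
    abel
  rw [e1, e2, e3] at h1
  exact h1

theorem result : Filter.Tendsto mu Filter.atTop (nhds 1) := by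
  rw [Metric.tendsto_atTop]
  intro ε hε
  obtain ⟨n0, hn0⟩ := defining_large (ε / 2) (by positivity)
  refine ⟨max n0 1, fun n hn => ?_⟩
  have hn1 : 1 ≤ n := le_trans (le_max_right _ _) hn
  have hnn0 : n0 ≤ n := le_trans (le_max_left _ _) hn
  have hb : 0 < numBlocks n := by
    unfold numBlocks
    have h4 : (4 : ℝ) ≤ 2 ^ (n + 1) := by
      calc (4 : ℝ) = 2 ^ (1 + 1) := by norm_num
        _ ≤ 2 ^ (n + 1) := pow_le_pow_right₀ (by norm_num) (by omega)
    have h5 : (0 : ℝ) < 2 ^ (n + 1) - 1 := by linarith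
    have h6 : (0 : ℝ) < 2 ^ (n + 1) - 2 := by linarith
    positivity
  set X : Set ℕ := {k : ℕ | ∃ S : Finset (Finset (Fin (n + 1) → ZMod 2)),
    IsDefiningSet (points n) (lines n) S ∧ S.card = k} with hX
  have hne : X.Nonempty := ⟨_, lines n, lines_defining n, rfl⟩
  obtain ⟨S, hS, hSc⟩ := Nat.sInf_mem hne
  have hle : sInf X ≤ (lines n).card := Nat.sInf_le ⟨lines n, lines_defining n, rfl⟩
  have hlow : (1 - ε / 2) * numBlocks n ≤ (sInf X : ℕ) := by
    rw [← hSc]
    exact hn0 n hnn0 S hS
  have hup : ((sInf X : ℕ) : ℝ) ≤ numBlocks n := by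
    rw [← card_lines]
    exact_mod_cast hle
  have h1 : 1 - ε / 2 ≤ mu n := by
    unfold mu
    rw [le_div_iff₀ hb]
    exact hlow
  have h2 : mu n ≤ 1 := by
    unfold mu
    rw [div_le_one hb]
    exact hup
  rw [Real.dist_eq, abs_lt]
  constructor <;> linarith

end Count

end Pool.Agent.Results.MP_bc5946_co.LimitOne
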